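import Pool.Agent.H78.S.TA

set_option autoImplicit false

open Set

namespace Pool.Agent.H36.S

open Pool.Agent.H78.S

section aff

variable {Γ K : Type} [Group Γ] [Field K] {a b : Γ → K}

theorem a_one (h : AfH Γ K a b) : a 1 = 1 := by
  have h1 := h.amul 1 1
  rw [mul_one] at h1
  have h2 : a 1 * (a 1 - 1) = 0 := by rw [mul_sub, ← h1, mul_one, sub_self]
  rcases mul_eq_zero.1 h2 with h3 | h3
  · exact absurd h3 (h.ne 1)
  · exact sub_eq_zero.1 h3

theorem b_one (h : AfH Γ K a b) : b 1 = 0 := by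
  have h1 := h.bmul 1 1
  rw [mul_one, a_one h, one_mul] at h1
  linear_combination -h1

theorem a_inv (h : AfH Γ K a b) (g : Γ) : a g⁻¹ * a g = 1 := by
  rw [← h.amul, inv_mul_cancel, a_one h]

theorem b_inv (h : AfH Γ K a b) (g : Γ) : a g⁻¹ * b g + b g⁻¹ = 0 := by
  rw [← h.bmul, inv_mul_cancel, b_one h]

/-- the kernel -/
def kr (h : AfH Γ K a b) : Subgroup Γ where
  carrier := {g | a g = 1 ∧ b g = 0}
  one_mem' := ⟨a_one h, b_one h⟩
  mul_mem' := fun {x y} hx hy => by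
    obtain ⟨hx1, hx2⟩ := hx
    obtain ⟨hy1, hy2⟩ := hy
    refine ⟨?_, ?_⟩
    · rw [h.amul, hx1, hy1, one_mul]
    · rw [h.bmul, hx1, hy2, hx2, mul_zero, add_zero]
  inv_mem' := fun {x} hx => by
    obtain ⟨hx1, hx2⟩ := hx
    refine ⟨?_, ?_⟩
    · have := a_inv h x
      rwa [hx1, mul_one] at this
    · have := b_inv h x
      rwa [hx2, mul_zero, zero_add] at this

theorem mem_kr (h : AfH Γ K a b) {g : Γ} : g ∈ kr h ↔ a g = 1 ∧ b g = 0 := Iff.rfl

theorem kr_normal (h : AfH Γ K a b) : (kr h).Normal := by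
  refine ⟨fun n hn g => ?_⟩
  obtain ⟨h1, h2⟩ := hn
  have h3 := a_inv h g
  have h4 := b_inv h g
  have h5 := a_inv h g⁻¹
  have h6 := b_inv h g⁻¹
  rw [inv_inv] at h5 h6
  refine ⟨?_, ?_⟩
  · rw [h.amul, h.amul, h1, mul_one, h5]
  · rw [h.bmul, h.bmul, h.amul, h1, h2, mul_one, mul_zero, zero_add]
    exact h6

theorem mem_kr_of_eq (h : AfH Γ K a b) {g k : Γ} (ha : a g = a k) (hb : b g = b k) :
    g⁻¹ * k ∈ kr h := by
  refine ⟨?_, ?_⟩
  · rw [h.amul, ← ha, a_inv h]
  · rw [h.bmul, ← hb, b_inv h]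

theorem eq_of_mem_kr (h : AfH Γ K a b) {g k : Γ} (hgk : g⁻¹ * k ∈ kr h) :
    a g = a k ∧ b g = b k := by
  obtain ⟨h1, h2⟩ := hgk
  have h3 : k = g * (g⁻¹ * k) := by group
  refine ⟨?_, ?_⟩
  · rw [h3, h.amul, h1, mul_one]
  · rw [h3, h.bmul, h2, mul_zero, zero_add]

end aff

theorem pf_AGA (hAGN : T_AGN) : T_AGA := by
  classical
  intro Γ _ t K _ a b L _ c d hab hcd hKi hLi hjs hcs
  have hN : ∀ j, (kr (hab j)).Normal := fun j => kr_normal (hab j)
  have hNL : (kr hcd).Normal := kr_normal hcd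
  by_cases h0 : ∀ g, (∀ j, g ∈ kr (hab j)) → g ∈ kr hcd
  swap
  · right
    push Not at h0
    obtain ⟨g₀, hg₀, hg₀'⟩ := h0
    intro v
    have hn : (⨅ j, kr (hab j)).Normal := Subgroup.normal_iInf_normal hN
    obtain ⟨g, hg, h1, h2⟩ := hAGN Γ L c d hcd (fun u v hu => hcs u v hu) (⨅ j, kr (hab j)) hn
      ⟨g₀, Subgroup.mem_iInf.2 hg₀, hg₀'⟩ v
    exact ⟨g, fun j => Subgroup.mem_iInf.1 hg j, h1, h2⟩
  left
  -- elements with one prescribed coordinate
  have hone : ∀ (j : Fin t) (γ : Γ), ∃ h, (∀ i, i ≠ j → h ∈ kr (hab i)) ∧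
      h⁻¹ * γ ∈ kr (hab j) := by
    intro j γ
    obtain ⟨h, hh⟩ := hjs (Function.update (fun _ => 1) j (a j γ))
      (Function.update (fun _ => 0) j (b j γ)) (by
        intro i
        by_cases hi : i = j
        · subst hi
          rw [Function.update_self]
          exact (hab i).ne γ
        · rw [Function.update_of_ne hi]
          exact one_ne_zero)
    refine ⟨h, ?_, ?_⟩
    · intro i hi
      obtain ⟨h1, h2⟩ := hh i
      rw [Function.update_of_ne hi] at h1 h2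
      exact ⟨h1, h2⟩
    · obtain ⟨h1, h2⟩ := hh j
      rw [Function.update_self] at h1 h2
      exact mem_kr_of_eq (hab j) h1 h2
  -- (1)
  have hex : ∃ j, ∃ h, (∀ i, i ≠ j → h ∈ kr (hab i)) ∧ h ∉ kr hcd := by
    by_contra hcon
    push Not at hcon
    have hall : ∀ A : Finset (Fin t), ∀ g, (∀ i, i ∉ A → g ∈ kr (hab i)) → g ∈ kr hcd := by
      intro A
      induction A using Finset.induction_on with
      | empty => exact fun g hg => h0 g (fun j => hg j (Finset.notMem_empty j))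
      | insert j A hj ih =>
        intro g hg
        obtain ⟨h, h1, h2⟩ := hone j g
        have h3 : h ∈ kr hcd := hcon j h h1
        have h4 : h⁻¹ * g ∈ kr hcd := by
          apply ih
          intro i hi
          by_cases hij : i = j
          · rw [hij]
            exact h2
          · exact mul_mem (inv_mem (h1 i hij)) (hg i (fun hc => by
              rcases Finset.mem_insert.1 hc with h | h
              · exact hij h
              · exact hi h))
        have h5 := mul_mem h3 h4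
        rwa [mul_inv_cancel_left] at h5
    obtain ⟨g, hg1, hg2⟩ := hcs 1 1 one_ne_zero
    have h6 : g ∈ kr hcd := hall Finset.univ g (fun i hi => absurd (Finset.mem_univ i) hi)
    rw [h6.2] at hg2
    exact zero_ne_one hg2
  obtain ⟨j, h₀, hh₀, hh₀'⟩ := hex
  refine ⟨j, ?_⟩
  -- (2)
  have hGn : (⨅ i : {i // i ≠ j}, kr (hab i.1)).Normal :=
    Subgroup.normal_iInf_normal fun i => hN i.1
  obtain ⟨h₁, hh₁, hc₁, hd₁⟩ := hAGN Γ L c d hcd (fun u v hu => hcs u v hu)
    (⨅ i : {i // i ≠ j}, kr (hab i.1)) hGn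
    ⟨h₀, Subgroup.mem_iInf.2 (fun i => hh₀ i.1 i.2), hh₀'⟩ 1
  have hh₁' : ∀ i, i ≠ j → h₁ ∈ kr (hab i) := fun i hi => Subgroup.mem_iInf.1 hh₁ ⟨i, hi⟩
  -- commutation
  have hE : ∀ g ∈ kr (hab j), ∀ h, (∀ i, i ≠ j → h ∈ kr (hab i)) →
      c g * d h + d g = c h * d g + d h := by
    intro g hg h hh
    have h1 : (h * g)⁻¹ * (g * h) ∈ kr hcd := by
      apply h0
      intro i
      by_cases hij : i = j
      · subst hij
        have h2 := (hN i).conj_mem g hg h⁻¹
        have h3 := mul_mem (inv_mem hg) h2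
        have h4 : (h * g)⁻¹ * (g * h) = g⁻¹ * (h⁻¹ * g * h⁻¹⁻¹) := by group
        rw [h4]
        exact h3
      · have h2 := (hN i).conj_mem h⁻¹ (inv_mem (hh i hij)) g⁻¹
        have h3 := mul_mem h2 (hh i hij)
        have h4 : (h * g)⁻¹ * (g * h) = g⁻¹ * h⁻¹ * g⁻¹⁻¹ * h := by group
        rw [h4]
        exact h3
    have h5 := (eq_of_mem_kr hcd h1).2
    rw [hcd.bmul, hcd.bmul] at h5
    exact h5.symm
  have hcg : ∀ g ∈ kr (hab j), c g = 1 := by
    intro g hg
    have h1 := hE g hg h₁ hh₁'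
    rw [hc₁, hd₁] at h1
    linear_combination h1
  obtain ⟨u, hu0, hu1⟩ : ∃ u : L, u ≠ 0 ∧ u ≠ 1 := by
    obtain ⟨u, hu⟩ := Infinite.exists_notMem_finset ({0, 1} : Finset L)
    rw [Finset.mem_insert, Finset.mem_singleton, not_or] at hu
    exact ⟨u, hu.1, hu.2⟩
  have hch : ∃ h, (∀ i, i ≠ j → h ∈ kr (hab i)) ∧ c h ≠ 1 := by
    obtain ⟨γ, hγ, _⟩ := hcs u 0 hu0
    obtain ⟨h, h1, h2⟩ := hone j γ
    refine ⟨h, h1, ?_⟩
    intro h3
    have h4 := hcg _ h2
    have h5 : γ = h * (h⁻¹ * γ) := by group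
    rw [h5, hcd.amul, h3, h4, one_mul] at hγ
    exact hu1 hγ.symm
  obtain ⟨h₂, hh₂, hc₂⟩ := hch
  have hP : ∀ g ∈ kr (hab j), g ∈ kr hcd := by
    intro g hg
    refine ⟨hcg g hg, ?_⟩
    have h1 := hE g hg h₂ hh₂
    rw [hcg g hg] at h1
    have h2 : (1 - c h₂) * d g = 0 := by linear_combination h1
    rcases mul_eq_zero.1 h2 with h3 | h3
    · exact absurd (sub_eq_zero.1 h3).symm hc₂
    · exact h3
  -- (4)
  have hP' : ∀ g ∈ kr hcd, g ∈ kr (hab j) := by
    by_contra hcon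
    push Not at hcon
    obtain ⟨g₃, hg₃, hg₃'⟩ := hcon
    have hsj : ∀ u v : K j, u ≠ 0 → ∃ g, a j g = u ∧ b j g = v := by
      intro u v hu
      obtain ⟨g, hg⟩ := hjs (Function.update (fun _ => 1) j u)
        (Function.update (fun _ => 0) j v) (by
          intro i
          by_cases hi : i = j
          · subst hi
            rw [Function.update_self]
            exact hu
          · rw [Function.update_of_ne hi]
            exact one_ne_zero)
      obtain ⟨h1, h2⟩ := hg j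
      rw [Function.update_self] at h1 h2
      exact ⟨g, h1, h2⟩
    have hall : ∀ g, a j g = 1 → g ∈ kr hcd := by
      intro g hg
      obtain ⟨l, hl, h1, h2⟩ := hAGN Γ (K j) (a j) (b j) (hab j) (fun u v hu => hsj u v hu)
        (kr hcd) hNL ⟨g₃, hg₃, hg₃'⟩ (b j g)
      have h3 : l⁻¹ * g ∈ kr (hab j) := mem_kr_of_eq (hab j) (h1.trans hg.symm) h2
      have h4 := mul_mem hl (hP _ h3)
      rwa [mul_inv_cancel_left] at h4
    obtain ⟨g, hg1, hg2⟩ := hcs u 0 hu0
    obtain ⟨h, hh1, hh2⟩ := hcs 1 1 one_ne_zero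
    have h1 : (h * g)⁻¹ * (g * h) ∈ kr hcd := by
      apply hall
      rw [(hab j).amul, (hab j).amul g h, mul_comm (a j g), ← (hab j).amul h g, a_inv (hab j)]
    have h5 := (eq_of_mem_kr hcd h1).2
    rw [hcd.bmul, hcd.bmul, hg1, hg2, hh1, hh2] at h5
    apply hu1
    linear_combination -h5
  exact fun g => ⟨fun hg => hP g hg, fun hg => hP' g hg⟩

end Pool.Agent.H36.S
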