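import Pool.Agent.H78.S.Targets

set_option autoImplicit false

open Set Pool.Agent.H77.BC Pool.Agent.H78.S
open scoped Pointwise

namespace Pool.Agent.H36.S

variable {M : Type} {U : RU M} {G S : Type} [Group G] [MulAction G S] [Cod M G] [Cod M S]

/-- the action of a fixed element is definable -/
theorem DFn_sm [DG U G] [Ful U S] (hact : DFn U (fun p : G × S => p.1 • p.2)) (g : G) :
    DFn U (fun y : S => g • y) :=
  DFn_comp (g := fun p : G × S => p.1 • p.2) hact (DFn_pair (DFn_const g) DFn_id)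

theorem kap_mv (g : G) (E : Set (S × S)) (T : Subgroup G) :
    kap (cj g⁻¹ T) (mv g E) = cj g⁻¹ (kap T E) := by
  ext x
  rw [mem_cj]
  unfold kap
  rw [Subgroup.mem_inf, Subgroup.mem_inf, Subgroup.mem_iInf, Subgroup.mem_iInf, mem_cj]
  have hset : ∀ y : S, {z : S | (g • y, z) ∈ mv g E} = g • {z : S | (y, z) ∈ E} := by
    intro y
    ext z
    rw [Set.mem_smul_set_iff_inv_smul_mem]
    change (g⁻¹ • g • y, g⁻¹ • z) ∈ E ↔ (y, g⁻¹ • z) ∈ E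
    rw [inv_smul_smul]
  have hkey : ∀ C : Set S, x • g • C = g • C ↔ (g⁻¹ * x * g⁻¹⁻¹) • C = C := by
    intro C
    rw [inv_inv, mul_smul, mul_smul, inv_smul_eq_iff]
  refine and_congr Iff.rfl ?_
  constructor
  · intro h y
    have h1 := h (g • y)
    rw [MulAction.mem_stabilizer_iff, hset, hkey] at h1
    exact h1
  · intro h y
    have h1 := h (g⁻¹ • y)
    rw [MulAction.mem_stabilizer_iff] at h1 ⊢
    rw [← hkey, ← hset, smul_inv_smul] at h1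
    exact h1

/-- the transported line -/
theorem line_mv [DG U G] [Ful U S] (hact : DFn U (fun p : G × S => p.1 • p.2))
    {H : Subgroup G} {X : Set S} {o e : S} {K : Type} [Field K] {f : S → K}
    (hL : Line U H X o e K f) (g : G) :
    Line U (cj g⁻¹ H) (g • X) (g • o) (g • e) K (fun y => f (g⁻¹ • y)) := by
  have hm : ∀ y : S, y ∈ g • X ↔ g⁻¹ • y ∈ X := fun y => Set.mem_smul_set_iff_inv_smul_mem
  have hg := DFn_sm (U := U) (S := S) hact g⁻¹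
  refine ⟨hL.inf, ?_, ?_, ?_, ?_, ?_, ?_, ?_, ?_⟩
  · have h1 := DFn_preim (f := fun p : S × S => (g⁻¹ • p.1, g⁻¹ • p.2))
      (DFn_pair (DFn_comp hg DFn_fst) (DFn_comp hg DFn_snd)) hL.rel
    refine (iff_of_eq (congrArg _ ?_)).1 h1
    ext p
    change (g⁻¹ • p.1 ∈ X ∧ g⁻¹ • p.2 ∈ X ∧ f (g⁻¹ • p.1) = f (g⁻¹ • p.2)) ↔
      (p.1 ∈ g • X ∧ p.2 ∈ g • X ∧ f (g⁻¹ • p.1) = f (g⁻¹ • p.2))
    rw [hm, hm]
  · have h1 := DFn_preim (f := fun p : S × S × S => (g⁻¹ • p.1, g⁻¹ • p.2.1, g⁻¹ • p.2.2))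
      (DFn_pair (DFn_comp hg DFn_fst) (DFn_pair (DFn_comp hg (DFn_comp DFn_fst DFn_snd))
        (DFn_comp hg (DFn_comp DFn_snd DFn_snd)))) hL.add
    refine (iff_of_eq (congrArg _ ?_)).1 h1
    ext p
    change (g⁻¹ • p.1 ∈ X ∧ g⁻¹ • p.2.1 ∈ X ∧ g⁻¹ • p.2.2 ∈ X ∧
        f (g⁻¹ • p.1) + f (g⁻¹ • p.2.1) = f (g⁻¹ • p.2.2)) ↔
      (p.1 ∈ g • X ∧ p.2.1 ∈ g • X ∧ p.2.2 ∈ g • X ∧
        f (g⁻¹ • p.1) + f (g⁻¹ • p.2.1) = f (g⁻¹ • p.2.2))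
    rw [hm, hm, hm]
  · have h1 := DFn_preim (f := fun p : S × S × S => (g⁻¹ • p.1, g⁻¹ • p.2.1, g⁻¹ • p.2.2))
      (DFn_pair (DFn_comp hg DFn_fst) (DFn_pair (DFn_comp hg (DFn_comp DFn_fst DFn_snd))
        (DFn_comp hg (DFn_comp DFn_snd DFn_snd)))) hL.mul
    refine (iff_of_eq (congrArg _ ?_)).1 h1
    ext p
    change (g⁻¹ • p.1 ∈ X ∧ g⁻¹ • p.2.1 ∈ X ∧ g⁻¹ • p.2.2 ∈ X ∧
        f (g⁻¹ • p.1) * f (g⁻¹ • p.2.1) = f (g⁻¹ • p.2.2)) ↔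
      (p.1 ∈ g • X ∧ p.2.1 ∈ g • X ∧ p.2.2 ∈ g • X ∧
        f (g⁻¹ • p.1) * f (g⁻¹ • p.2.1) = f (g⁻¹ • p.2.2))
    rw [hm, hm, hm]
  · intro k
    obtain ⟨y, hy, hy'⟩ := hL.onto k
    exact ⟨g • y, Set.smul_mem_smul_set hy, by simp only [inv_smul_smul]; exact hy'⟩
  · simp only [inv_smul_smul]
    exact hL.f0
  · simp only [inv_smul_smul]
    exact hL.f1
  · intro h hh
    rw [mem_cj, inv_inv] at hh
    obtain ⟨a, b, ha, hf⟩ := hL.act _ hh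
    refine ⟨a, b, ha, fun y hy => ?_⟩
    have h1 := hf _ ((hm y).1 hy)
    rw [mul_smul, mul_smul, smul_inv_smul] at h1
    exact h1
  · intro a b ha
    obtain ⟨h, hh, hf⟩ := hL.full a b ha
    refine ⟨g * h * g⁻¹, ?_, fun y hy => ?_⟩
    · rw [mem_cj]
      have : g⁻¹ * (g * h * g⁻¹) * g⁻¹⁻¹ = h := by group
      rw [this]
      exact hh
    · have h1 := hf _ ((hm y).1 hy)
      change f (g⁻¹ • (g * h * g⁻¹) • y) = a * f (g⁻¹ • y) + b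
      rw [← h1, mul_smul, mul_smul, inv_smul_smul]

theorem pf_LMV (_ : T_ORM) : T_LMV := by
  intro M U G S _ _ _ _ _ _ hact H X o e E L g
  refine ⟨⟨⟨L.K, L.fld, fun y => L.f (g⁻¹ • y), line_mv hact L.line g, ?_⟩, RingEquiv.refl L.K,
    fun y => rfl⟩, fun T => kap_mv g E T⟩
  ext p
  have h1 : ∀ q : S × S, q ∈ E ↔ q.1 ∈ X ∧ q.2 ∈ X ∧ L.f q.1 = L.f q.2 := by
    intro q
    conv_lhs => rw [L.eq]
    exact Iff.rfl
  change (g⁻¹ • p.1, g⁻¹ • p.2) ∈ E ↔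
    (p.1 ∈ g • X ∧ p.2 ∈ g • X ∧ L.f (g⁻¹ • p.1) = L.f (g⁻¹ • p.2))
  rw [h1, Set.mem_smul_set_iff_inv_smul_mem, Set.mem_smul_set_iff_inv_smul_mem]

end Pool.Agent.H36.S
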