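import Pool.Agent.H78.S.Targets

set_option autoImplicit false

open Set Pool.Agent.H77.BC Pool.Agent.H78.S
open scoped Pointwise

namespace Pool.Agent.H36.S

/-- invariance of the orbit -/
theorem orb_inv {G S : Type} [Group G] [MulAction G S] {H : Subgroup G} {o : S} {h : G}
    (hh : h ∈ H) {y : S} (hy : y ∈ Orb H o) : h • y ∈ Orb H o := by
  obtain ⟨g, hg, rfl⟩ := hy
  exact ⟨h * g, mul_mem hh hg, by rw [mul_smul]⟩

theorem orb_self {G S : Type} [Group G] [MulAction G S] (H : Subgroup G) (o : S) :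
    o ∈ Orb H o := ⟨1, one_mem _, by rw [one_smul]⟩

theorem pf_LNU (_ : T_CTB) : T_LNU := by
  classical
  intro M U G S _ _ _ _ _ _ _ H X T o e hC E L L'
  have hinv : ∀ h ∈ H, ∀ y ∈ X, h • y ∈ X := by
    intro h hh y hy
    rw [hC.orb] at hy ⊢
    exact orb_inv hh hy
  have ho : o ∈ X := by
    rw [hC.orb]
    exact orb_self H o
  have he : e ∈ X := hC.mem
  have hfib : ∀ y ∈ X, ∀ z ∈ X, (L.f y = L.f z ↔ L'.f y = L'.f z) := by
    intro y hy z hz
    have h1 : ((y, z) ∈ E ↔ y ∈ X ∧ z ∈ X ∧ L.f y = L.f z) := by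
      conv_lhs => rw [L.eq]
      exact Iff.rfl
    have h2 : ((y, z) ∈ E ↔ y ∈ X ∧ z ∈ X ∧ L'.f y = L'.f z) := by
      conv_lhs => rw [L'.eq]
      exact Iff.rfl
    constructor
    · intro h
      exact (h2.1 (h1.2 ⟨hy, hz, h⟩)).2.2
    · intro h
      exact (h1.1 (h2.2 ⟨hy, hz, h⟩)).2.2
  let φ : L.K → L'.K := fun k => L'.f (Classical.choose (L.line.onto k))
  have hsp : ∀ k, Classical.choose (L.line.onto k) ∈ X ∧
      L.f (Classical.choose (L.line.onto k)) = k := fun k =>
    Classical.choose_spec (L.line.onto k)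
  have hφ : ∀ y ∈ X, φ (L.f y) = L'.f y := by
    intro y hy
    obtain ⟨h1, h2⟩ := hsp (L.f y)
    exact (hfib _ h1 y hy).1 h2
  have hinj : Function.Injective φ := by
    intro k k' hk
    obtain ⟨h1, h2⟩ := hsp k
    obtain ⟨h3, h4⟩ := hsp k'
    rw [← h2, ← h4]
    exact (hfib _ h1 _ h3).2 hk
  have hsur : Function.Surjective φ := by
    intro k'
    obtain ⟨y, hy, hy'⟩ := L'.line.onto k'
    exact ⟨L.f y, by rw [hφ y hy, hy']⟩
  have h0 : φ 0 = 0 := by rw [← L.line.f0, hφ o ho, L'.line.f0]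
  have h1 : φ 1 = 1 := by rw [← L.line.f1, hφ e he, L'.line.f1]
  have haff : ∀ a b : L.K, a ≠ 0 → ∃ a' b' : L'.K, a' ≠ 0 ∧ ∀ k, φ (a * k + b) = a' * φ k + b' := by
    intro a b ha
    obtain ⟨h, hh, hf⟩ := L.line.full a b ha
    obtain ⟨a', b', ha', hf'⟩ := L'.line.act h hh
    refine ⟨a', b', ha', fun k => ?_⟩
    obtain ⟨h1, h2⟩ := hsp k
    have h3 := hf _ h1
    have h4 := hf' _ h1
    have h5 := hφ _ (hinv h hh _ h1)
    have h6 := hφ _ h1
    rw [h2] at h3 h6
    rw [← h3, h5, h4, h6]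
  have hadd : ∀ k b : L.K, φ (k + b) = φ k + φ b := by
    intro k b
    obtain ⟨a', b', ha', hf⟩ := haff 1 b one_ne_zero
    simp only [one_mul] at hf
    have hb : b' = φ b := by
      have := hf 0
      rw [zero_add, h0, mul_zero, zero_add] at this
      exact this.symm
    have ha : a' = 1 := by
      by_cases hb0 : b = 0
      · have := hf 1
        rw [hb0, add_zero, h1, mul_one, hb, hb0, h0, add_zero] at this
        exact this.symm
      · by_contra hne
        obtain ⟨k₁, hk₁⟩ := hsur (b' / (1 - a'))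
        have hne' : (1 : L'.K) - a' ≠ 0 := sub_ne_zero.2 (Ne.symm hne)
        have h2 := hf k₁
        have h3 : a' * φ k₁ + b' = φ k₁ := by
          rw [hk₁]
          field_simp
          ring
        rw [h3] at h2
        have h4 := hinj h2
        exact hb0 (by simpa using h4)
    rw [hf k, ha, one_mul, hb]
  have hmul : ∀ a k : L.K, φ (a * k) = φ a * φ k := by
    intro a k
    by_cases ha0 : a = 0
    · rw [ha0, zero_mul, h0, zero_mul]
    · obtain ⟨a', b', ha', hf⟩ := haff a 0 ha0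
      simp only [add_zero] at hf
      have hb : b' = 0 := by
        have := hf 0
        rw [mul_zero, h0, mul_zero, zero_add] at this
        exact this.symm
      have ha : a' = φ a := by
        have := hf 1
        rw [mul_one, h1, mul_one, hb, add_zero] at this
        exact this.symm
      rw [hf k, hb, add_zero, ha]
  refine ⟨{ Equiv.ofBijective φ ⟨hinj, hsur⟩ with map_mul' := hmul, map_add' := hadd }, ?_⟩
  intro y hy
  exact (hφ y hy).symm

end Pool.Agent.H36.S
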