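import Pool.Agent.H78.S.Targets

set_option autoImplicit false

open Set Pool.Agent.H77.BC Pool.Agent.H78.S
open scoped Pointwise

namespace Pool.Agent.H36.S

theorem big_mono {M : Type} {U : RU M} {α : Type} [Cod M α] {A X Y : Set α} (h : Big U A X)
    (hXY : X ⊆ Y) : Big U A Y := by
  obtain ⟨Z, h1, h2, h3, h4, h5⟩ := h
  exact ⟨Z, h1, h2, h3, h4.trans hXY, h5⟩

theorem big_pre {M : Type} {U : RU M} {G S : Type} [Group G] [MulAction G S] [Cod M G]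
    [Cod M S] [DG U G] [Ful U S] (hORM : T_ORM) (hact : DFn U (fun p : G × S => p.1 • p.2))
    (g : G) {Z : Set S} (h : Big U univ Z) : Big U univ {y | g • y ∈ Z} := by
  have h1 := (hORM U hact g⁻¹ univ Z).2.2.1 (Ful.full (U := U)) h
  rw [Set.smul_set_univ] at h1
  refine big_mono h1 ?_
  intro y hy
  rw [Set.mem_smul_set_iff_inv_smul_mem, inv_inv] at hy
  exact hy

theorem pf_NTT (hCTB : T_CTB) (hLNK : T_LNK) (hHIC : T_HIC) (hHIJ : T_HIJ) (hSWP : T_SWP)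
    (hCJH : T_CJH) (hBGA : T_BGA) (hORM : T_ORM) (hRNK : T_RNK) : T_NTT := by
  classical
  intro M U G S _ _ _ _ n x hF i j hi hj hij E E' L L' φ hyp
  have _ := hF.dg
  have _ := hF.ful
  have hact := hF.act
  have hI : Irr U (univ : Set S) := (hRNK U x hF).1
  have hCi := (hHIC U x hF i hi).1
  have hCj := (hHIC U x hF j hj).1
  have hBi := hCTB U hact _ _ _ _ _ hCi
  have hBj := hCTB U hact _ _ _ _ _ hCj
  have hLi := hLNK U hact _ _ _ _ _ hCi E L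
  have hLj := hLNK U hact _ _ _ _ _ hCj E' L'
  obtain ⟨hLi1, hLi2, -, -, -, -, -, -, hLi3⟩ := hLi
  obtain ⟨hLj1, hLj2, -, -, -, -, -, -, hLj3⟩ := hLj
  have hZi : Orb (TT U G x 0) (x 0) ⊆ XX U G x i := hBi.2.2.2.2.2.2.2.2.2.2.2.1
  have hZj : Orb (TT U G x 0) (x 0) ⊆ XX U G x j := hBj.2.2.2.2.2.2.2.2.2.2.2.1
  have hinvj := hBj.2.2.2.2.2.2.2.2.1
  have hZb : Big U (univ : Set S) (Orb (TT U G x 0) (x 0)) :=
    (hHIJ U x hF 0 j (Ne.symm hj)).2.2.2.2.2.2.2.2.1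
  have hint : ∀ X Y : Set S, Big U univ X → Big U univ Y → Big U univ (X ∩ Y) :=
    (hBGA U univ hI).1
  obtain ⟨w, hw, hwp⟩ := hSWP U x hF 0 i (Ne.symm hi)
  obtain ⟨w', hw', hwp'⟩ := hSWP U x hF 0 j (Ne.symm hj)
  have hwf : ∀ y ∈ XX U G x i, L.f (w • y) = 1 - L.f y := by
    apply hLi3 w hw
    · rw [hwp i, Equiv.swap_apply_right]
    · rw [hwp 0, Equiv.swap_apply_left]
  have hwf' : ∀ y ∈ XX U G x j, L'.f (w' • y) = 1 - L'.f y := by
    apply hLj3 w' hw'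
    · rw [hwp' j, Equiv.swap_apply_right]
    · rw [hwp' 0, Equiv.swap_apply_left]
  set g : G := w * w' with hg
  have hgp : Pm x g (Equiv.swap 0 i * Equiv.swap 0 j) := by
    intro l
    rw [hg, mul_smul, hwp' l, hwp (Equiv.swap 0 j l)]
    rfl
  have hyp' : ∀ y ∈ Orb (TT U G x 0) (x 0), L'.f y = φ (L.f y) := by
    rintro y ⟨t, ht, rfl⟩
    exact hyp t ht
  -- generic points
  let Z : Set S := Orb (TT U G x 0) (x 0)
  let Gen : Set S := Z ∩ ({y | w' • y ∈ Z} ∩ {y | g • y ∈ Z})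
  have hGen : Big U univ Gen := hint _ _ hZb (hint _ _ (big_pre hORM hact w' hZb)
    (big_pre hORM hact g hZb))
  have hGf : ∀ y ∈ Gen, L'.f (g • y) = L'.f y := by
    rintro y ⟨h1, h2, h3⟩
    have h4 : L.f (g • y) = 1 - L.f (w' • y) := by
      rw [hg, mul_smul]
      exact hwf _ (hZi h2)
    have h5 : φ (L.f (w' • y)) = 1 - φ (L.f y) := by
      rw [← hyp' _ h2, ← hyp' _ h1]
      exact hwf' _ (hZj h1)
    rw [hyp' _ h3, hyp' _ h1, h4, map_sub, h5, map_one]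
    ring
  -- an element of `T`
  obtain ⟨k, hk0, hk1⟩ : ∃ k : L.K, k ≠ 0 ∧ k ≠ 1 := by
    have := L.line.inf
    obtain ⟨k, hk⟩ := Infinite.exists_notMem_finset ({0, 1} : Finset L.K)
    rw [Finset.mem_insert, Finset.mem_singleton, not_or] at hk
    exact ⟨k, hk.1, hk.2⟩
  obtain ⟨h, hh, hhk⟩ := hLi2 k hk0
  have hσ : (Equiv.swap 0 i * Equiv.swap 0 j) 0 = j := by
    rw [Equiv.Perm.mul_apply, Equiv.swap_apply_left, Equiv.swap_apply_of_ne_of_ne hj (Ne.symm hij)]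
  have hh'T : g * h * g⁻¹ ∈ TT U G x j := by
    have h1 := (hCJH U x hF g _ hgp).2.1 0
    rw [hσ] at h1
    rw [← h1, mem_cj]
    have h2 : g⁻¹ * (g * h * g⁻¹) * g⁻¹⁻¹ = h := by group
    rw [h2]
    exact hh
  obtain ⟨-, -, hsym, -, -, -, hle, -, -, hfix, -⟩ := hHIJ U x hF j 0 hj
  have hh'H : g * h * g⁻¹ ∈ HH U G x 0 j := by
    rw [← hsym]
    exact hle hh'T
  have hh'0 : (g * h * g⁻¹) • x 0 = x 0 := hfix 0 (Ne.symm hj) _ hh'T
  obtain ⟨α, β, hα, hαβ⟩ := L'.line.act _ hh'H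
  have hx0 : x 0 ∈ XX U G x j := hCj.mem
  have hsum : α + β = 1 := by
    have h1 := hαβ _ hx0
    rw [hh'0, L'.line.f1, mul_one] at h1
    exact h1.symm
  -- the second generic set
  let Gen2 : Set S := Z ∩ ({y | g⁻¹ • y ∈ Gen} ∩ {y | (h * g⁻¹) • y ∈ Gen})
  have hGen2 : Big U univ Gen2 := hint _ _ hZb (hint _ _ (big_pre hORM hact g⁻¹ hGen)
    (big_pre hORM hact (h * g⁻¹) hGen))
  have hG2 : ∀ y ∈ Gen2, α * L'.f y + β = φ k * L'.f y := by
    rintro y ⟨h1, h2, h3⟩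
    have h4 := hGf _ h3
    have h5 := hGf _ h2
    rw [smul_inv_smul] at h5
    have h6 : g • (h * g⁻¹) • y = (g * h * g⁻¹) • y := by
      rw [← mul_smul]
      congr 1
      group
    rw [h6, hαβ _ (hZj h1)] at h4
    have h7 : g⁻¹ • y ∈ XX U G x j := hZj h2.1
    have h8 := (hLj1 h hh).2 _ h7
    rw [h4, mul_smul, h8, hyp h hh, hhk, h5]
  have hdiff : ∃ y ∈ Gen2, ∃ z ∈ Gen2, L'.f y ≠ L'.f z := by
    by_contra hcon
    push Not at hcon
    obtain ⟨y₀, hy₀⟩ : Gen2.Nonempty := by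
      obtain ⟨Y, -, ⟨y, hy⟩, -, hY, -⟩ := hGen2
      exact ⟨y, hY hy⟩
    obtain ⟨h₁, hh₁, hf₁⟩ := L'.line.full 1 1 one_ne_zero
    obtain ⟨z, hz1, hz2⟩ := hI.2.2 _ _ hGen2 (big_pre hORM hact h₁⁻¹ hGen2)
    have h1 : h₁⁻¹ • z ∈ Gen2 := hz2
    have h2 := hf₁ _ (hZj h1.1)
    rw [smul_inv_smul, one_mul, hcon _ h1 _ hy₀, hcon _ hz1 _ hy₀] at h2
    exact one_ne_zero (left_eq_add.1 h2)
  obtain ⟨y, hy, z, hz, hyz⟩ := hdiff
  have h1 := hG2 y hy
  have h2 := hG2 z hz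
  have h3 : (α - φ k) * (L'.f y - L'.f z) = 0 := by linear_combination h1 - h2
  have h4 : α = φ k := by
    rcases mul_eq_zero.1 h3 with h | h
    · exact sub_eq_zero.1 h
    · exact absurd (sub_eq_zero.1 h) hyz
  have h5 : β = 0 := by
    rw [h4] at h1
    exact left_eq_add.1 (by linear_combination -h1 : φ k * L'.f y = φ k * L'.f y + β)
  rw [h5, add_zero, h4] at hsum
  apply hk1
  apply φ.injective
  rw [hsum, map_one]

end Pool.Agent.H36.S
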